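import Mathlib
import Pool.Agent.Q18.P.Par
import Pool.Agent.Q18.P.EC

/-!
# The parity conjecture for Hilbert newforms: all `λ` at once, and the number of violations, from one product

Let `g_1, …, g_m` be Hilbert newforms of parallel weight two over the totally real field `K` as in the problem, `t_{i,v}` the
Hecke eigenvalues at the places `v ∉ S` (`S` finite), `(-1)^{w_i}` the root number, `r_i(λ) = dim H¹_f(K, V_{g_i,λ})` for ALL
finite places `λ` of the coefficient field. We shift the variable of the problem by one: `F_i(s) = L^S(g_i, s - 1)`, with the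
centre `s = 1`. `Known` lists the known facts: `|t_v| ≤ 2√q_v` (Blasius), `F_i` is holomorphic of polynomial growth to the
right of some `Re s = 1 - η`, the Euler product, the parity of the central order is given by the root number, and, if the
order is `0` or `1`, then `r_i(λ)` is equal to it for all `λ` (Gross-Zagier, Kolyvagin-Logachev, Zhang, Nekovář; for some
forms over fields of odd degree this theorem has a further local condition, which is then part of the hypothesis).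
ONE product for the family: `P(y) = ∏_i ∏_{v ∉ S, q_v ≤ y} (1 - t_{i,v}/q_v + 1/q_v)`.

Fix `0 < δ < 1`; the windows are `[Y^(1-δ), Y]`; `U(κ, B)` at `Y`: `∫ max (log P - κ log log y, 0) dy/y ≤ B log Y`;
`m₋ = ∑ w_i`.

1. If `U(κ, B)` holds for arbitrarily large `Y` (one sequence of windows, as sparse as we like), then all `L(g_i, s)` satisfy
   the Riemann hypothesis, and for all but at most `(κ - m₋)/2` of the `g_i` the central order is `w_i` and is equal to
   `r_i(λ)` for every `λ`; so the parity conjecture holds for these `g_i` and all `λ`; if `κ < m₋ + 2`, for all `g_i`.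
2. If for at least `k` of the `g_i` the parity conjecture fails for some `λ`, then `U(κ, B)` fails for ALL large `Y`, for
   every `B` and every `κ < m₋ + 2k`.
3. For any one `κ` in `[m₋, m₋ + 2)`: the Riemann hypothesis and all orders `w_i` ⟺ `U(κ, B)` for some `B` and arbitrarily
   large `Y` ⟺ for some `B` and all large `Y`.
4. For any real `κ`: the Riemann hypothesis for all `g_i` and `∑ ord ≤ κ` ⟺ the same two.
-/

set_option autoImplicit false

namespace Pool.Agent.Results.MP_d4aa36_nt.AllSelmerGroupsAtOnce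

open Filter Topology Set Complex NumberField IsDedekindDomain MeasureTheory
open Pool.Agent.Q18.P (norm Holo NoZeros Order MeanBound excess upTo)

variable {K : Type} [Field K] [NumberField K]

/-- The known facts on `g`: `t` the Hecke eigenvalues, `F` the incomplete `L`-function with the centre `1`, `(-1)^w` the root
number, `r λ` the dimension of the Bloch-Kato Selmer group of `V_{g,λ}`. -/
structure Known (S : Finset (HeightOneSpectrum (𝓞 K))) (t : HeightOneSpectrum (𝓞 K) → ℝ) (F : ℂ → ℂ)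
    {I : Type} (r : I → ℕ) (w : ℕ) : Prop where
  bound : ∀ v, v ∉ S → |t v| ≤ 2 * √(norm v : ℝ)
  /-- holomorphic of polynomial growth in a half plane `Re s > 1 - η` -/
  holo : Holo 1 F
  euler : ∀ s : ℂ, 3 / 2 < s.re → HasProd (fun v : {v : HeightOneSpectrum (𝓞 K) // v ∉ S} =>
    (1 - t v.1 * (norm v.1 : ℂ) ^ (-s) + (norm v.1 : ℂ) ^ (1 - 2 * s))⁻¹) (F s)
  sign : w = 0 ∨ w = 1
  /-- the functional equation -/
  parity : ∀ e : ℤ, Order 1 F e → 2 ∣ e - w
  /-- Kolyvagin, Logachev, Zhang, Nekovář -/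
  zero : Order 1 F 0 → ∀ lam, r lam = 0
  one : Order 1 F 1 → ∀ lam, r lam = 1

/-- `P(y) = ∏_i ∏_{v ∉ S, q_v ≤ y} (1 - t_{i,v}/q_v + 1/q_v)` -/
noncomputable def product (S : Finset (HeightOneSpectrum (𝓞 K))) {m : ℕ} (t : Fin m → HeightOneSpectrum (𝓞 K) → ℝ)
    (y : ℝ) : ℝ :=
  ∏ i, ∏ᶠ v ∈ upTo S y, (1 - t i v / (norm v : ℝ) + 1 / (norm v : ℝ))

/-- the central order is `w`, and equal to the dimension of every Selmer group -/
def Fine (F : ℂ → ℂ) {I : Type} (r : I → ℕ) (w : ℕ) : Prop := Order 1 F w ∧ ∀ lam, r lam = w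

/-! ### translation -/

/-- the roots of `X² - t_v X + q_v` -/
noncomputable def al (t : HeightOneSpectrum (𝓞 K) → ℝ) (v : HeightOneSpectrum (𝓞 K)) (j : Fin 2) : ℂ :=
  (√(norm v : ℝ) : ℝ) * Pool.Agent.TH942.ES.rt (t v / (2 * √(norm v : ℝ))) j

theorem two_le (v : HeightOneSpectrum (𝓞 K)) : (2 : ℝ) ≤ norm v := Pool.Agent.Q18.P.EC.two_le v

theorem sqrt_pos (v : HeightOneSpectrum (𝓞 K)) : 0 < √(norm v : ℝ) := Real.sqrt_pos.2 (by linarith [two_le v])

variable {S : Finset (HeightOneSpectrum (𝓞 K))} {t : HeightOneSpectrum (𝓞 K) → ℝ} {v : HeightOneSpectrum (𝓞 K)}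

theorem small (h : |t v| ≤ 2 * √(norm v : ℝ)) : |t v / (2 * √(norm v : ℝ))| ≤ 1 := by
  have h1 := sqrt_pos v
  rw [abs_div, abs_of_pos (by linarith : (0 : ℝ) < 2 * √(norm v : ℝ)), div_le_one (by linarith)]
  exact h

theorem al_norm (h : |t v| ≤ 2 * √(norm v : ℝ)) (j : Fin 2) : ‖al t v j‖ ≤ √(norm v : ℝ) := by
  have h1 := Pool.Agent.TH942.ES.rt_norm (small h) j
  have h2 : 0 ≤ √(norm v : ℝ) := (sqrt_pos v).le
  unfold al
  rw [norm_mul, Complex.norm_real, Real.norm_of_nonneg h2]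
  exact mul_le_of_le_one_right h2 h1

theorem al_add : al t v 0 + al t v 1 = t v := by
  have h0 := (sqrt_pos v).ne'
  unfold al
  rw [← mul_add, Pool.Agent.Q18.P.EC.rt_sum, ← Complex.ofReal_ofNat, ← Complex.ofReal_mul, ← Complex.ofReal_mul]
  congr 1
  field_simp

theorem al_mul (h : |t v| ≤ 2 * √(norm v : ℝ)) : al t v 0 * al t v 1 = norm v := by
  have h1 := Pool.Agent.Q18.P.EC.rt_mul (small h)
  have h2 : ((√(norm v : ℝ) : ℝ) : ℂ) ^ 2 = norm v := by
    have h3 : √(norm v : ℝ) ^ 2 = norm v := Real.sq_sqrt (by linarith [two_le v])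
    exact_mod_cast congrArg (fun x : ℝ => (x : ℂ)) h3
  unfold al
  calc _ = ((√(norm v : ℝ) : ℝ) : ℂ) ^ 2 * (Pool.Agent.TH942.ES.rt (t v / (2 * √(norm v : ℝ))) 0 *
        Pool.Agent.TH942.ES.rt (t v / (2 * √(norm v : ℝ))) 1) := by ring
    _ = _ := by rw [h1, h2, mul_one]

theorem factor_eq (h : |t v| ≤ 2 * √(norm v : ℝ)) (s : ℂ) :
    1 - t v * (norm v : ℂ) ^ (-s) + (norm v : ℂ) ^ (1 - 2 * s) = ∏ j, (1 - al t v j * (norm v : ℂ) ^ (-s)) := by
  have hn : (norm v : ℂ) ≠ 0 := by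
    have := two_le v
    have h2 : (norm v : ℝ) ≠ 0 := by linarith
    exact_mod_cast h2
  have h1 : (norm v : ℂ) ^ (1 - 2 * s) = (al t v 0 * al t v 1) * ((norm v : ℂ) ^ (-s)) ^ 2 := by
    rw [al_mul h, ← Complex.cpow_nat_mul, show 1 - 2 * s = 1 + ((2 : ℕ) : ℂ) * (-s) by push_cast; ring,
      Complex.cpow_add _ _ hn, Complex.cpow_one]
  rw [Fin.prod_univ_two, h1, ← al_add (t := t) (v := v)]
  ring

theorem product_eq (h : ∀ v, v ∉ S → |t v| ≤ 2 * √(norm v : ℝ)) (y : ℝ) :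
    ∏ᶠ v ∈ upTo S y, (1 - t v / (norm v : ℝ) + 1 / (norm v : ℝ)) = Pool.Agent.Q18.P.product 1 S (al t) y := by
  unfold Pool.Agent.Q18.P.product
  refine finprod_mem_congr rfl fun v hv => ?_
  have hn := two_le v
  have hn0 : (norm v : ℝ) ≠ 0 := by linarith
  have h2 := factor_eq (h v hv.1) 1
  have e1 : (1 : ℂ) - t v * (norm v : ℂ) ^ (-(1 : ℂ)) + (norm v : ℂ) ^ (1 - 2 * (1 : ℂ)) =
      ((1 - t v / (norm v : ℝ) + 1 / (norm v : ℝ) : ℝ) : ℂ) := by
    rw [show (1 : ℂ) - 2 * 1 = -1 by norm_num, Complex.cpow_neg_one]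
    push_cast
    ring
  rw [e1] at h2
  have e2 : ∏ j, (1 - al t v j * (norm v : ℂ) ^ (-((1 : ℝ) : ℂ))) = ((1 - t v / (norm v : ℝ) + 1 / (norm v : ℝ) : ℝ) : ℂ) := by
    rw [h2, Complex.ofReal_one]
  rw [e2, Complex.norm_real, Real.norm_of_nonneg]
  have h3 := h v hv.1
  have h5 : √(norm v : ℝ) ^ 2 = norm v := Real.sq_sqrt (by linarith)
  have h6 : 0 ≤ (√(norm v : ℝ) - 1) ^ 2 := sq_nonneg _
  have h7 := (abs_le.1 h3).2
  have h8 : 1 - t v / (norm v : ℝ) + 1 / (norm v : ℝ) = (norm v - t v + 1) / norm v := by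
    field_simp
  rw [h8]
  refine div_nonneg ?_ (by linarith)
  nlinarith

/-- **The parity conjecture for all `λ` at once, and the number of violations in a finite family.** -/
theorem result (K : Type) [Field K] [NumberField K] (m : ℕ) (S : Finset (HeightOneSpectrum (𝓞 K)))
    (t : Fin m → HeightOneSpectrum (𝓞 K) → ℝ) (F : Fin m → ℂ → ℂ) (I : Type) (r : Fin m → I → ℕ) (w : Fin m → ℕ)
    (h : ∀ i, Known S (t i) (F i) (r i) (w i)) (δ : ℝ) (h0 : 0 < δ) (h1 : δ < 1) :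
    -- (1) one sequence of windows
    (∀ κ B : ℝ, (∃ᶠ Y : ℝ in atTop, MeanBound δ (excess (product S t) κ) B Y) →
      (∀ i, NoZeros 1 (F i)) ∧ (Nat.card {i // ¬ Fine (F i) (r i) (w i)} : ℝ) ≤ (κ - ∑ i, (w i : ℝ)) / 2 ∧
      (κ < ∑ i, (w i : ℝ) + 2 → ∀ i, Fine (F i) (r i) (w i))) ∧
    -- (2) in every window
    (∀ k : ℕ, k ≤ Nat.card {i // ∃ lam, ¬ (r i lam ≡ w i [MOD 2])} → ∀ κ B : ℝ, κ < ∑ i, (w i : ℝ) + 2 * k →
      ∀ᶠ Y : ℝ in atTop, ¬ MeanBound δ (excess (product S t) κ) B Y) ∧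
    -- (3) all orders are the least ones
    (∀ κ : ℝ, ∑ i, (w i : ℝ) ≤ κ → κ < ∑ i, (w i : ℝ) + 2 → List.TFAE [
      (∀ i, NoZeros 1 (F i)) ∧ ∀ i, Order 1 (F i) (w i),
      ∃ B : ℝ, ∃ᶠ Y : ℝ in atTop, MeanBound δ (excess (product S t) κ) B Y,
      ∃ B : ℝ, ∀ᶠ Y : ℝ in atTop, MeanBound δ (excess (product S t) κ) B Y]) ∧
    -- (4) the sum of the orders
    (∀ κ : ℝ, List.TFAE [
      (∀ i, NoZeros 1 (F i)) ∧ ∃ e : Fin m → ℤ, (∀ i, Order 1 (F i) (e i)) ∧ ((∑ i, e i : ℤ) : ℝ) ≤ κ,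
      ∃ B : ℝ, ∃ᶠ Y : ℝ in atTop, MeanBound δ (excess (product S t) κ) B Y,
      ∃ B : ℝ, ∀ᶠ Y : ℝ in atTop, MeanBound δ (excess (product S t) κ) B Y]) := by
  classical
  have hb : ∀ i, Pool.Agent.Q18.P.Bdd 1 S (al (t i)) := by
    intro i v hv j
    have := al_norm ((h i).bound v hv) j
    rw [Real.sqrt_eq_rpow] at this
    simpa using this
  have hE : ∀ i, Pool.Agent.Q18.P.Euler 1 S (al (t i)) (F i) := by
    intro i s hs
    refine ((h i).euler s (by linarith)).congr_fun fun v => ?_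
    rw [factor_eq ((h i).bound v.1 v.2)]
  have hfine : ∀ i, Order 1 (F i) ((w i : ℕ) : ℤ) → Fine (F i) (r i) (w i) := by
    intro i hi
    refine ⟨hi, fun lam => ?_⟩
    rcases (h i).sign with h2 | h2
    · rw [h2] at hi ⊢
      exact (h i).zero (by simpa using hi) lam
    · rw [h2] at hi ⊢
      exact (h i).one (by simpa using hi) lam
  obtain ⟨t1, t2, t3⟩ := Pool.Agent.Q18.P.signs Pool.Agent.Q18.P.EC.one_c hb (fun i => (h i).holo) hE
    (fun i => ((w i : ℕ) : ℤ)) (fun i => by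
      rcases (h i).sign with h2 | h2
      · left; rw [h2]; rfl
      · right; rw [h2]; rfl) (fun i => (h i).parity) (fun i => Fine (F i) (r i) (w i)) hfine h0 h1
  have e1 : (fun y => ∏ i, Pool.Agent.Q18.P.product 1 S (al (t i)) y) = product S t := by
    funext y
    unfold product
    exact Finset.prod_congr rfl fun i _ => (product_eq (h i).bound y).symm
  have e2 : ((∑ i : Fin m, ((w i : ℕ) : ℤ) : ℤ) : ℝ) = ∑ i, (w i : ℝ) := by push_cast; rfl
  rw [e1] at t1 t2 t3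
  rw [e2] at t1 t2
  have t4 : ∀ κ B : ℝ, (∃ᶠ Y : ℝ in atTop, MeanBound δ (excess (product S t) κ) B Y) →
      (∀ i, NoZeros 1 (F i)) ∧ (Nat.card {i // ¬ Fine (F i) (r i) (w i)} : ℝ) ≤ (κ - ∑ i, (w i : ℝ)) / 2 ∧
      (κ < ∑ i, (w i : ℝ) + 2 → ∀ i, Fine (F i) (r i) (w i)) := by
    intro κ B hB
    obtain ⟨a1, a2, a3⟩ := t1 κ B hB
    exact ⟨a1, a2, fun hκ i => hfine i (a3 hκ i)⟩
  refine ⟨t4, fun k hk κ B hκ => ?_, t2, t3⟩
  by_contra hne
  rw [Filter.not_eventually] at hne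
  have hB : ∃ᶠ Y : ℝ in atTop, MeanBound δ (excess (product S t) κ) B Y := hne.mono fun Y hY => not_not.1 hY
  have h2 := (t4 κ B hB).2.1
  have h3 : Nat.card {i // ∃ lam, ¬ (r i lam ≡ w i [MOD 2])} ≤ Nat.card {i // ¬ Fine (F i) (r i) (w i)} := by
    refine Nat.card_le_card_of_injective
      (fun x : {i // ∃ lam, ¬ (r i lam ≡ w i [MOD 2])} => (⟨x.1, fun hf => by
        obtain ⟨lam, hl⟩ := x.2
        exact hl (by rw [hf.2 lam])⟩ : {i // ¬ Fine (F i) (r i) (w i)})) ?_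
    intro x y hxy
    simp only [Subtype.mk.injEq] at hxy
    exact Subtype.ext hxy
  have h4 : (k : ℝ) ≤ Nat.card {i // ¬ Fine (F i) (r i) (w i)} := by exact_mod_cast hk.trans h3
  linarith

end Pool.Agent.Results.MP_d4aa36_nt.AllSelmerGroupsAtOnce
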