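import Mathlib
import Pool.Agent.Q112.PP.Main

/-!
# Parity for base changes to odd extensions of Galois 2-extensions

`f` is a newform over `ℚ` of even weight with trivial character, `p` an odd prime such that the
component of `f` at `p` is not supercuspidal and some component at a prime different from `p` is not
principal series, `λ` a place over `p` and `V = V_{f,λ}`. `F` is a totally real field, `F'` its Galois closure over `ℚ` and `G` the Galois group of `F' / ℚ`; `H` is the
subgroup of `F`. Suppose that `H` has odd order and that `G` has a normal subgroup `N` of odd order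
such that `G / N` is a 2-group. Let `g` be the base change of `f` to `F`. Then the parity conjecture
holds for `V_{g,λ}`. The prime `p` may be inert or ramified in `F`.
-/

set_option autoImplicit false

namespace Pool.Agent.Results.MP_d4aa36_nt.BaseChangeTwoExtensions

open Pool.Agent.H541R3.ART

variable {G : Type} [Group G] [Finite G]

/-- The dual of a character. -/
def dual (χ : G → ℂ) : G → ℂ := fun g => χ g⁻¹

/-- The character given by a homomorphism to the signs. -/
def ofSign (ψ : G →* ℤˣ) : G → ℂ := fun g => (((ψ g : ℤˣ) : ℤ) : ℂ)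

/-- The published theorems on the multiplicities `a χ` of the irreducible characters `χ` of `G` in
`H¹_f(F', V) ⊗ ℂ` and on the orders `b χ` of the L-functions of the twists `V ⊗ χ` at the centre
`s = 0`. -/
structure KnownTheorems (a : (G → ℂ) → ℕ) (b : (G → ℂ) → ℤ) : Prop where
  /-- Poitou-Tate duality (formula of Greenberg and Wiles): the Bloch-Kato Selmer groups of `V ⊗ χ`
  and of its dual have the same dimension -/
  selmer_dual : ∀ χ ∈ Irr G, a (dual χ) = a χ
  /-- the functional equation: the L-functions of `V ⊗ χ` and of its dual have the same order at the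
  centre -/
  order_dual : ∀ χ ∈ Irr G, b (dual χ) = b χ
  /-- the parity conjecture for the quadratic twists of `f` over `ℚ` (Nekovář) -/
  parity : ∀ ψ : G →* ℤˣ, (Even (a (ofSign ψ)) ↔ Even (b (ofSign ψ)))

/-- `mult χ` is the multiplicity of the trivial character in the restriction of `χ` to `H`. The first
sum is the dimension of `H¹_f(F, V_{g,λ})`, the invariants of `H` in `H¹_f(F', V)`, and the second
sum is the order of `L(V_{g,λ}, s)` at `s = 0`, by the Artin formalism. -/
theorem result (N : Subgroup G) [N.Normal] (hN : Odd (Nat.card N)) (h2 : IsPGroup 2 (G ⧸ N))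
    (H : Subgroup G) (hH : Odd (Nat.card H)) (mult : (G → ℂ) → ℕ)
    (hmult : ∀ χ ∈ Irr G, ∑ᶠ h : H, χ h = mult χ * Nat.card H)
    {a : (G → ℂ) → ℕ} {b : (G → ℂ) → ℤ} (known : KnownTheorems a b) :
    Even (∑ χ ∈ irrF G, a χ * mult χ) ↔ Even (∑ χ ∈ irrF G, b χ * mult χ) := by
  classical
  have h1 := Q112PP.parity_formula N hN h2 H hH mult hmult a known.selmer_dual
    (fun χ => (-1 : ℂ) ^ b χ) (fun χ hχ => by
      show (-1 : ℂ) ^ b χ * (-1 : ℂ) ^ b (dual χ) = 1
      rw [known.order_dual χ hχ, ← mul_zpow]
      norm_num) (fun ψ => by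
      show (-1 : ℂ) ^ b (ofSign ψ) = (-1) ^ a (ofSign ψ)
      have h3 := known.parity ψ
      rcases Nat.even_or_odd (a (ofSign ψ)) with he | ho
      · rw [he.neg_one_pow, (h3.1 he).neg_one_zpow]
      · have h4 : Odd (b (ofSign ψ)) := by
          rw [← Int.not_even_iff_odd, ← h3, Nat.not_even_iff_odd]
          exact ho
        rw [ho.neg_one_pow, h4.neg_one_zpow])
  have h2 : ∏ χ ∈ irrF G, ((-1 : ℂ) ^ b χ) ^ mult χ = (-1 : ℂ) ^ ∑ χ ∈ irrF G, b χ * mult χ := by
    have hne : (-1 : ℂ) ≠ 0 := by norm_num
    induction irrF G using Finset.induction_on with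
    | empty => simp
    | insert x s hx ih =>
        rw [Finset.prod_insert hx, Finset.sum_insert hx, zpow_add₀ hne, ih, zpow_mul,
          zpow_natCast]
  rw [h2] at h1
  have h5 : (1 : ℂ) ≠ -1 := by norm_num
  rcases Nat.even_or_odd (∑ χ ∈ irrF G, a χ * mult χ) with he | ho
  · refine ⟨fun _ => ?_, fun _ => he⟩
    by_contra hb
    rw [Int.not_even_iff_odd] at hb
    rw [he.neg_one_pow, hb.neg_one_zpow] at h1
    exact h5 h1.symm
  · refine ⟨fun he => absurd he (Nat.not_even_iff_odd.2 ho), fun hb => ?_⟩
    rw [ho.neg_one_pow, hb.neg_one_zpow] at h1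
    exact absurd h1 h5

end Pool.Agent.Results.MP_d4aa36_nt.BaseChangeTwoExtensions
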