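import Pool.Agent.Q117.ML.Par


/-!
# The parity of the analytic rank of a Hilbert newform from Hecke eigenvalues at two real points

`F` is totally real, `g` a Hilbert newform as in the question, with Hecke eigenvalues `t v` (real numbers) and level
divisible exactly by the places in the finite set `B`. With `q` the norm of `v` let `tr v k` be the sum of the
`k`-th powers of the two roots of `X² - t_v X + q` (`v ∉ B`) or of `X² - t_v X` (`v ∈ B`). For `γ > π/2` and a real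
number `σ` put

`S_σ(T) = ∑_v ∑_{k ≥ 1} (tr v k / (k q^{k (1 + σ)})) e^{iγ k log q/T} / Γ(1 + k log q/T)`.

Then for all small `ε > 0`, `ord_{s = 0} L(g, s) = lim (Im S_ε(T) - Im S_{-ε}(T)) / π`, and the parity statement of the
question, `ord_{s=0} L ≡ N` modulo `2` with `N = dim H¹_f(F, V_{g,λ})`, is decided by the sign of
`(-1)^N Re (e^{S_{-ε}(T)} e^{S_ε(T)})` for large `T`.
-/

set_option autoImplicit false

namespace Pool.Agent.Results.MP_d4aa36_nt.ParityByArguments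

open Filter Topology NumberField IsDedekindDomain Pool.Agent.Q45.ML

/-- the sum of the `k`-th powers of the two roots of `X² - a X + b` -/
def pw (a b : ℝ) : ℕ → ℝ
  | 0 => 2
  | 1 => a
  | k + 2 => a * pw a b (k + 1) - b * pw a b k

variable {F : Type} [Field F] [NumberField F]

/-- the norm of a finite place -/
noncomputable def nm (v : HeightOneSpectrum (𝓞 F)) : ℕ := Ideal.absNorm v.asIdeal

open Classical in
/-- `q` at the good places, `0` at the places in `B` -/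
noncomputable def bq (B : Finset (HeightOneSpectrum (𝓞 F))) (v : HeightOneSpectrum (𝓞 F)) : ℝ :=
  if v ∈ B then 0 else nm v

/-- the term at `(v, k)`, `k = z.2 + 1` -/
noncomputable def term (B : Finset (HeightOneSpectrum (𝓞 F))) (t : HeightOneSpectrum (𝓞 F) → ℝ)
    (σ γ T : ℝ) (z : HeightOneSpectrum (𝓞 F) × ℕ) : ℂ :=
  (pw (t z.1) (bq B z.1) (z.2 + 1) : ℂ) /
      ((z.2 + 1) * (nm z.1 : ℂ) ^ (((z.2 + 1) * (1 + σ) : ℝ) : ℂ)) *
    (Complex.exp ((γ * ((z.2 + 1) * Real.log (nm z.1) / T) : ℝ) * Complex.I) /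
      (Real.Gamma (1 + (z.2 + 1) * Real.log (nm z.1) / T) : ℂ))

/-- the smoothed sum -/
noncomputable def S (B : Finset (HeightOneSpectrum (𝓞 F))) (t : HeightOneSpectrum (𝓞 F) → ℝ)
    (σ γ T : ℝ) : ℂ := ∑' z, term B t σ γ T z

/-- the two roots of `X² - a X + b` -/
noncomputable def rt (a b : ℝ) : Fin 2 → ℂ :=
  ![((a : ℂ) + ((a : ℂ) ^ 2 - 4 * b) ^ (1 / 2 : ℂ)) / 2,
    ((a : ℂ) - ((a : ℂ) ^ 2 - 4 * b) ^ (1 / 2 : ℂ)) / 2]

theorem rt_add (a b : ℝ) : rt a b 0 + rt a b 1 = a := by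
  simp [rt]; ring

theorem rt_mul (a b : ℝ) : rt a b 0 * rt a b 1 = b := by
  have h : (((a : ℂ) ^ 2 - 4 * b) ^ (1 / 2 : ℂ)) ^ 2 = (a : ℂ) ^ 2 - 4 * b := by
    rw [← Complex.cpow_nat_mul]; norm_num
  simp only [rt, Matrix.cons_val_zero, Matrix.cons_val_one]
  linear_combination (-1 / 4 : ℂ) * h

theorem rt_eq (a b : ℝ) (j : Fin 2) : rt a b j ^ 2 = a * rt a b j - b := by
  have h1 := rt_add a b
  have h2 := rt_mul a b
  fin_cases j
  · show rt a b 0 ^ 2 = a * rt a b 0 - b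
    linear_combination rt a b 0 * h1 - h2
  · show rt a b 1 ^ 2 = a * rt a b 1 - b
    linear_combination rt a b 1 * h1 - h2

theorem sum_pow (a b : ℝ) : ∀ k : ℕ, (∑ j, rt a b j ^ k) = pw a b k
  | 0 => by simp [pw]
  | 1 => by simp [pw, Fin.sum_univ_two, rt_add]
  | k + 2 => by
    have h1 := sum_pow a b (k + 1)
    have h2 := sum_pow a b k
    rw [Fin.sum_univ_two] at h1 h2 ⊢
    have e0 := rt_eq a b 0
    have e1 := rt_eq a b 1
    simp only [pw]
    push_cast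
    rw [← h1, ← h2]
    linear_combination rt a b 0 ^ k * e0 + rt a b 1 ^ k * e1

theorem rt_prod (a b : ℝ) (x : ℂ) : ∏ j, (1 - rt a b j * x) = 1 - a * x + b * x ^ 2 := by
  rw [Fin.prod_univ_two]
  linear_combination (-x) * rt_add a b + x ^ 2 * rt_mul a b

/-- the shifted parameters -/
noncomputable def par (B : Finset (HeightOneSpectrum (𝓞 F))) (t : HeightOneSpectrum (𝓞 F) → ℝ)
    (v : HeightOneSpectrum (𝓞 F)) (j : Fin 2) : ℂ := rt (t v) (bq B v) j / (nm v : ℂ)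

theorem two_le_nm (v : HeightOneSpectrum (𝓞 F)) : (2 : ℝ) ≤ nm v := two_le_nrm v

theorem eul (B : Finset (HeightOneSpectrum (𝓞 F))) (t : HeightOneSpectrum (𝓞 F) → ℝ)
    (ht : ∀ v, |t v| ≤ nm v + 1) : Eul 2 (nrm (K := F)) (par B t) 1 1 := by
  refine ⟨zero_le_one, two_le_nrm, fun _ hσ => nrm_summable hσ, fun v j => ?_⟩
  have h0 := two_le_nm v
  have hq : nrm v = (nm v : ℝ) := rfl
  have ha : ‖((t v : ℝ) : ℂ)‖ ≤ (nm v : ℝ) + 1 := by
    rw [Complex.norm_real, Real.norm_eq_abs]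
    exact ht v
  have hb : ‖((bq B v : ℝ) : ℂ)‖ ≤ (nm v : ℝ) := by
    unfold bq
    split_ifs
    · simp
    · simp
  have h1 := rt_eq (t v) (bq B v) j
  set z := rt (t v) (bq B v) j with hz
  have h2 : ‖z‖ ^ 2 ≤ ((nm v : ℝ) + 1) * ‖z‖ + nm v := by
    rw [← norm_pow, h1]
    refine (norm_sub_le _ _).trans ?_
    rw [norm_mul]
    gcongr
  have h3 : ‖z‖ ≤ (nm v : ℝ) ^ 2 := by
    by_contra h
    push Not at h
    nlinarith [norm_nonneg z]
  have h4 : par B t v j = z / (nm v : ℂ) := rfl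
  rw [h4, norm_div, Complex.norm_natCast, hq, Real.rpow_one, div_le_iff₀ (by linarith), ← pow_two]
  exact h3

theorem par_pow (B : Finset (HeightOneSpectrum (𝓞 F))) (t : HeightOneSpectrum (𝓞 F) → ℝ)
    (v : HeightOneSpectrum (𝓞 F)) (k : ℕ) :
    ∑ j, par B t v j ^ k = (pw (t v) (bq B v) k : ℂ) / (nm v : ℂ) ^ k := by
  simp only [par, div_pow]
  rw [← Finset.sum_div, sum_pow]

theorem real_sums (B : Finset (HeightOneSpectrum (𝓞 F))) (t : HeightOneSpectrum (𝓞 F) → ℝ) :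
    RealSums (par B t) := by
  intro v k
  rw [par_pow]
  have : ((pw (t v) (bq B v) k : ℝ) : ℂ) / (nm v : ℂ) ^ k =
      ((pw (t v) (bq B v) k / (nm v : ℝ) ^ k : ℝ) : ℂ) := by push_cast; rfl
  rw [this, Complex.ofReal_im]

theorem term_eq (B : Finset (HeightOneSpectrum (𝓞 F))) (t : HeightOneSpectrum (𝓞 F) → ℝ)
    (σ γ T : ℝ) (z : HeightOneSpectrum (𝓞 F) × ℕ) :
    term B t σ γ T z = sterm nrm (par B t) σ γ T z := by
  have h0 := two_le_nm z.1
  have hne : (nm z.1 : ℂ) ≠ 0 := by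
    have : (nm z.1 : ℝ) ≠ 0 := by linarith
    exact_mod_cast this
  have hq : ((nrm z.1 : ℝ) : ℂ) = (nm z.1 : ℂ) := by simp [nrm, nm]
  have hq' : Real.log (nrm z.1) = Real.log (nm z.1) := rfl
  unfold term sterm
  rw [par_pow, hq, hq']
  congr 1
  have e1 : (nm z.1 : ℂ) ^ ((((z.2 + 1) * (1 + σ) : ℝ)) : ℂ) =
      (nm z.1 : ℂ) ^ (z.2 + 1) * (nm z.1 : ℂ) ^ ((((z.2 + 1) * σ : ℝ)) : ℂ) := by
    rw [← Complex.cpow_natCast, ← Complex.cpow_add _ _ hne]
    congr 1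
    push_cast
    ring
  rw [e1, div_div]
  congr 1
  ring

theorem smooth_eq (B : Finset (HeightOneSpectrum (𝓞 F))) (t : HeightOneSpectrum (𝓞 F) → ℝ)
    (σ γ T : ℝ) : smooth nrm (par B t) σ γ T = S B t σ γ T := by
  unfold smooth S
  simp only [term_eq]

theorem factor_eq (B : Finset (HeightOneSpectrum (𝓞 F))) (t : HeightOneSpectrum (𝓞 F) → ℝ) (s : ℂ)
    (v : HeightOneSpectrum (𝓞 F)) : ∏ j, (1 - par B t v j * ((nrm v : ℝ) : ℂ) ^ (-s))⁻¹ =
      (1 - (t v : ℂ) * (nm v : ℂ) ^ (-1 - s) +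
        (bq B v : ℂ) * ((nm v : ℂ) ^ (-1 - s)) ^ 2)⁻¹ := by
  have h0 := two_le_nm v
  have hne : (nm v : ℂ) ≠ 0 := by
    have : (nm v : ℝ) ≠ 0 := by linarith
    exact_mod_cast this
  have hq : ((nrm v : ℝ) : ℂ) = (nm v : ℂ) := by simp [nrm, nm]
  rw [Finset.prod_inv_distrib, ← rt_prod, hq]
  congr 1
  refine Finset.prod_congr rfl fun j _ => ?_
  have e1 : (nm v : ℂ) ^ (-1 - s) = (nm v : ℂ)⁻¹ * (nm v : ℂ) ^ (-s) := by
    rw [sub_eq_add_neg, Complex.cpow_add _ _ hne, Complex.cpow_neg_one]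
  rw [e1]
  unfold par
  rw [div_eq_mul_inv, mul_assoc]

theorem result (F : Type) [Field F] [NumberField F] (_hF : NumberField.IsTotallyReal F)
    (B : Finset (HeightOneSpectrum (𝓞 F))) (t : HeightOneSpectrum (𝓞 F) → ℝ)
    (ht : ∀ v, |t v| ≤ nm v + 1) (L : ℂ → ℂ) (hA : ∀ x : ℝ, AnalyticAt ℂ L (x : ℂ))
    (hL : ∀ s : ℂ, 1 < s.re → HasProd (fun v => (1 - (t v : ℂ) * (nm v : ℂ) ^ (-1 - s) +
        (bq B v : ℂ) * ((nm v : ℂ) ^ (-1 - s)) ^ 2)⁻¹) (L s))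
    {γ : ℝ} (hγ : Real.pi / 2 < γ) :
    (∀ σ T : ℝ, 0 < T → Summable fun z => ‖term B t σ γ T z‖) ∧
    ∃ δ : ℝ, 0 < δ ∧ ∀ ε : ℝ, 0 < ε → ε ≤ δ →
      Tendsto (fun T : ℝ => ((S B t ε γ T).im - (S B t (-ε) γ T).im) / Real.pi) atTop
        (𝓝 (analyticOrderNatAt L 0)) ∧
      ∀ N : ℕ, List.TFAE [Even (analyticOrderNatAt L 0 + N),
        ∀ᶠ T : ℝ in atTop, 0 < (-1) ^ N *
          (Complex.exp (S B t (-ε) γ T) * Complex.exp (S B t ε γ T)).re,
        ∃ᶠ T : ℝ in atTop, 0 < (-1) ^ N *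
          (Complex.exp (S B t (-ε) γ T) * Complex.exp (S B t ε γ T)).re] := by
  have hE := eul B t ht
  have hR := real_sums B t
  refine ⟨fun σ T hT => ?_, ?_⟩
  · simp only [term_eq]
    exact hE.sterm_summable σ γ hT
  have hF : ∀ s : ℂ, (1 : ℝ) + 1 < s.re →
      HasProd (fun v => ∏ j, (1 - par B t v j * ((nrm (K := F) v : ℝ) : ℂ) ^ (-s))⁻¹) (L s) := by
    intro s hs
    simp only [factor_eq]
    exact hL s (by linarith)
  obtain ⟨δ, hδ, h1, h2⟩ := Pool.Agent.Q117.ML.exists_points hE (c := 0) (by norm_num)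
    (fun x _ => hA x) hF
  refine ⟨min δ 1, lt_min hδ one_pos, fun ε hε hεδ => ?_⟩
  have hε1 : ε ≤ δ := hεδ.trans (min_le_left _ _)
  have hε2 : ε ≤ 1 := hεδ.trans (min_le_right _ _)
  have h3 := Pool.Agent.Q117.ML.order_two_points hE hR (c := 0) (σ₁ := -ε) (σ₂ := ε)
    (by linarith) (by linarith) (by linarith) (fun x _ => hA x) hF
    (fun x hx hx' hne => h2 x (by linarith) (by linarith) hne) hγ
  simp only [smooth_eq, Complex.ofReal_zero] at h3
  exact ⟨h3.1, h3.2⟩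

end Pool.Agent.Results.MP_d4aa36_nt.ParityByArguments
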