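import Mathlib
import Pool.Agent.Q190.RV.Quad

/-!
# Parity for Hilbert newforms and ratios of Euler products

Let `g` be a Hilbert newform over a totally real field `K` as in the problem, with the Hecke eigenvalues `t_v` (real,
`|t_v| ≤ 2 √q_v` for the good places, by Blasius), `S` a finite set of places containing the bad ones, and
`F(s) = ∏_{v ∉ S} (1 - t_v q_v^{-s} + q_v^{1-2s})⁻¹`; so `F(s) = L^S(g, s - 1)` is entire and of polynomial growth, with
centre `s = 1`, and `m = ord_{s=1} F = ord_{s=0} L(V_{g,λ}, s)`. Let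

`P(y) = ∏_{v ∉ S, q_v ≤ y} (q_v + 1 - t_v)/q_v`, `P*(y) = exp (- ∑_{v ∉ S, q_v^n ≤ y} (α_v^n + β_v^n)/(n q_v^n))`,

`α_v`, `β_v` the roots of `X² - t_v X + q_v`. The following holds for `R = P` and for `R = P*`; nothing is supposed on zeros.

1. (ONE exponent.) If `R(y^l) ≤ Q R(y)` for all large `y`, for one `l > 1`, then `F` has no zeros with `Re s > 1`, and
   `l^m ≤ Q`. If the sign of the functional equation is `(-1)^w`, `w = 0` or `1`, and `Q < l^(w+2)`, then `m = w`, the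
   smallest order which the sign allows. If also `q R(y) ≤ R(y^l)` for all large `y`, `q > 0`, then `q ≤ l^m`.
2. (Growth forced by the order.) For every `l > 1` and `Q < l^m` there are arbitrarily large `y` with
   `R(y^l) > Q R(y)`; for instance for all `Q < l` if the sign is `-1`.
3. (Parity from one exponent.) If `R(y^l) / R(y)` converges to `ρ` for one `l > 1`, then `F` has no zeros with `Re s > 1`,
   `ρ = l^m`, and for an integer `N` (in the problem `N = dim H¹_f(K, V_{g,λ})`) the parity conjecture `N ≡ m mod 2` holds if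
   and only if `ρ` is `l^r` with some integer `r ≡ N mod 2`.
4. If `R(y) / (log y)^κ` converges to a positive number for some real `κ`, then `F` has no zeros with `Re s > 1`, and
   `κ = m`; so the parity conjecture is `κ ≡ N mod 2`. For `R = P*` this happens for some `κ` if and only if `P*(y^l) / P*(y)`
   converges for all `l` in a set of positive outer measure in `(1, ∞)`.
5. `P(y)` has the order of magnitude `(log y)^κ` if and only if `κ = m` and for all `l` in a set of positive outer measure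
   in `(1, ∞)` there is a `Q(l)` with `P(y^l) ≤ Q(l) P(y)` for all large `y`.
-/

set_option autoImplicit false

namespace Pool.Agent.Results.MP_d4aa36_nt.ParityRatios

open Filter Topology Set Complex NumberField IsDedekindDomain MeasureTheory ComplexConjugate
open Pool.Agent.Q190.RV.Quad (Bound Euler product productStar)

variable {K : Type} [Field K] [NumberField K]

/-- `F` is holomorphic and of polynomial growth in a half plane `Re s > 1 - η`. -/
def Holo (F : ℂ → ℂ) : Prop :=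
  ∃ (η C : ℝ) (k : ℕ), 0 < η ∧ ∀ s : ℂ, 1 - η < s.re → DifferentiableAt ℂ F s ∧ ‖F s‖ ≤ C * (1 + ‖s‖) ^ k

/-- `F` has no zeros with `Re s > 1`. -/
def NoZeros (F : ℂ → ℂ) : Prop := ∀ s : ℂ, 1 < s.re → F s ≠ 0

/-- `R(y^l) ≤ Q R(y)` for all large `y` -/
def Upper (R : ℝ → ℝ) (l Q : ℝ) : Prop := ∀ᶠ y : ℝ in atTop, R (y ^ l) ≤ Q * R y

/-- `q R(y) ≤ R(y^l)` for all large `y` -/
def Lower (R : ℝ → ℝ) (l q : ℝ) : Prop := ∀ᶠ y : ℝ in atTop, q * R y ≤ R (y ^ l)

/-- There is a set `Λ ⊆ (1, ∞)` of positive (outer) Lebesgue measure such that for every `l ∈ Λ` there is a `Q` with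
`R(y^l) ≤ Q R(y)` for all large `y`. -/
def Regular (R : ℝ → ℝ) : Prop :=
  ∃ Λ : Set ℝ, Λ ⊆ Ioi 1 ∧ volume Λ ≠ 0 ∧ ∀ l ∈ Λ, ∃ Q : ℝ, Upper R l Q

/-- There is a set `Λ ⊆ (1, ∞)` of positive (outer) Lebesgue measure such that for every `l ∈ Λ` the ratio
`R(y^l) / R(y)` converges as `y → ∞`. -/
def Conv (R : ℝ → ℝ) : Prop :=
  ∃ Λ : Set ℝ, Λ ⊆ Ioi 1 ∧ volume Λ ≠ 0 ∧ ∀ l ∈ Λ, ∃ r : ℝ, Tendsto (fun y : ℝ => R (y ^ l) / R y) atTop (𝓝 r)

/-- `R(y) ≍ (log y)^κ` -/
def OfOrder (R : ℝ → ℝ) (κ : ℝ) : Prop :=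
  ∃ a b : ℝ, 0 < a ∧ ∀ᶠ y : ℝ in atTop, a * Real.log y ^ κ ≤ R y ∧ R y ≤ b * Real.log y ^ κ

/-- **Parity for Hilbert newforms and ratios of Euler products.** -/
theorem result (K : Type) [Field K] [NumberField K] (S : Finset (HeightOneSpectrum (𝓞 K)))
    (t : HeightOneSpectrum (𝓞 K) → ℝ) (ht : Bound S t) (F : ℂ → ℂ) (hE : Euler S t F) (hF : Holo F) :
    ∃ m : ℕ, analyticOrderAt F 1 = m ∧
    (∀ R : ℝ → ℝ, R = product S t ∨ R = productStar S t →
      -- (1) one exponent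
      (∀ l Q : ℝ, 1 < l → Upper R l Q → NoZeros F ∧ l ^ m ≤ Q ∧
        (∀ w : ℕ, w ≤ 1 → m ≡ w [MOD 2] → Q < l ^ (w + 2) → m = w) ∧
        ∀ q : ℝ, 0 < q → Lower R l q → q ≤ l ^ m) ∧
      -- (2) growth
      (∀ l Q : ℝ, 1 < l → Q < l ^ m → ∃ᶠ y : ℝ in atTop, Q * R y < R (y ^ l)) ∧
      -- (3) parity from one exponent
      (∀ l ρ : ℝ, 1 < l → Tendsto (fun y : ℝ => R (y ^ l) / R y) atTop (𝓝 ρ) → NoZeros F ∧ ρ = l ^ m ∧
        ∀ N : ℕ, (m ≡ N [MOD 2] ↔ ∃ r : ℕ, r ≡ N [MOD 2] ∧ ρ = l ^ r)) ∧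
      -- (4) the exponent
      ∀ κ b : ℝ, 0 < b → Tendsto (fun y : ℝ => R y / Real.log y ^ κ) atTop (𝓝 b) → NoZeros F ∧ κ = m) ∧
    (Conv (productStar S t) ↔
      ∃ κ b : ℝ, 0 < b ∧ Tendsto (fun y : ℝ => productStar S t y / Real.log y ^ κ) atTop (𝓝 b)) ∧
    -- (5) the order of magnitude
    (∀ κ : ℝ, OfOrder (product S t) κ ↔ κ = m ∧ Regular (product S t)) := by
  have hH : Pool.Agent.Q190.RV.Holo 1 S (Pool.Agent.Q190.RV.Quad.al t) F :=
    ⟨hF, fun s hs => Pool.Agent.Q190.RV.Quad.euler ht hE hs⟩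
  have hP := Pool.Agent.Q190.RV.Quad.pure ht
  obtain ⟨m, hm⟩ := hH.order_finite' Pool.Agent.Q190.RV.Quad.one_c hP.le
  rw [Pool.Agent.Q190.RV.Quad.product_eq ht, Pool.Agent.Q190.RV.Quad.star_eq ht]
  obtain ⟨a, ha0, ha⟩ := hH.leading hm
  have tl := Pool.Agent.Q190.RV.s_law Pool.Agent.Q190.RV.Quad.one_c hP.le hH hm ha ha0
  have hm' : analyticOrderAt F 1 = m := by
    rw [Complex.ofReal_one] at hm
    exact hm
  refine ⟨m, hm', fun R hR => ?_, tl.out 3 1, fun κ =>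
    (Pool.Agent.Q190.RV.order_law Pool.Agent.Q190.RV.Quad.one_c hP.le hH hm).1 κ⟩
  have hR' : Pool.Agent.Q190.RV.Ratios 1 F m R := by
    rcases hR with rfl | rfl
    · exact Pool.Agent.Q190.RV.ratios Pool.Agent.Q190.RV.Quad.one_c hP.le hH hm
    · exact Pool.Agent.Q190.RV.ratios_star Pool.Agent.Q190.RV.Quad.one_c hP.le hH hm
  refine ⟨fun l Q hl hQ => ?_, fun l Q hl hQ => hR'.freq hl hQ, fun l ρ hl hρ => ?_, fun κ b hb h => hR'.kappa hb h⟩
  · obtain ⟨h1, h2⟩ := hR'.upper l Q hl hQ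
    refine ⟨h1, h2, fun w hw hmw hQw => ?_, fun q hq0 hq => hR'.lower h1 l q hl hq0 hq⟩
    have h3 := hR'.lt hl hQ hQw
    have h4 : m % 2 = w % 2 := hmw
    omega
  · obtain ⟨h1, h2⟩ := hR'.limit l ρ hl hρ
    refine ⟨h1, h2, fun N => ⟨fun h => ⟨m, h, h2⟩, ?_⟩⟩
    rintro ⟨r, hr, h3⟩
    rw [h2] at h3
    have h4 : m = r := pow_right_injective₀ (by linarith) hl.ne' h3
    rw [h4]
    exact hr

end Pool.Agent.Results.MP_d4aa36_nt.ParityRatios
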